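import Pool.Agent.PPile.Final

/-!
# Point stabilizers of projective piles on profinite free completions (MP_b4f2f0_al, Q1)

`F` is a free group (any rank), `completion (GrpCat.of F)` its profinite completion, `etaHom F` the
canonical homomorphism.  If a finitely generated subgroup `H ≤ F` has as closure a point stabilizer
of a projective pile `(F^, T)`, then `H` is a free factor of `F`.
-/

namespace Pool.Agent.Results.MP_b4f2f0_al.PileStabilizer

universe u v

open Pool.Agent.PPile ProfiniteGrp ProfiniteCompletion

/-- **Positive answer to Q1.** -/
theorem result {F : Type u} [Group F] [IsFreeGroup F] (H : Subgroup F) (hH : H.FG)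
    (T : Profinite.{v}) (P : Pile (completion (GrpCat.of F)) T) (hP : P.IsProjective)
    (t : T) (ht : (H.map (etaHom F)).topologicalClosure = P.stab t) :
    IsFreeFactor H :=
  main H hH T P hP t ht.symm

end Pool.Agent.Results.MP_b4f2f0_al.PileStabilizer
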